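import Mathlib

/-!
# Automorphisms of the complex numbers
-/

set_option autoImplicit false

open Cardinal

noncomputable section

namespace Pool.Agent.Y776.AxJ

/-- the isomorphism given by a bijection of transcendence bases -/
theorem exists_equiv {K : Type} [Field K] [Algebra K ℂ] {ι κ : Type} {v : ι → ℂ} {w : κ → ℂ}
    (hv : IsTranscendenceBasis K v) (hw : IsTranscendenceBasis K w) (e : ι ≃ κ) :
    ∃ σ : ℂ ≃+* ℂ, (∀ c : K, σ (algebraMap K ℂ c) = algebraMap K ℂ c) ∧ ∀ i, σ (v i) = w (e i) := by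
  letI := IsAlgClosed.isAlgClosure_of_transcendence_basis v hv
  letI := IsAlgClosed.isAlgClosure_of_transcendence_basis w hw
  let e' : Algebra.adjoin K (Set.range v) ≃+* Algebra.adjoin K (Set.range w) :=
    (hv.1.aevalEquiv.symm.toRingEquiv.trans (MvPolynomial.renameEquiv K e).toRingEquiv).trans
      hw.1.aevalEquiv.toRingEquiv
  have h1 : ∀ P : MvPolynomial ι K, e' (hv.1.aevalEquiv P) =
      hw.1.aevalEquiv (MvPolynomial.renameEquiv K e P) := by
    intro P
    simp [e']
  refine ⟨IsAlgClosure.equivOfEquiv ℂ ℂ e', fun c => ?_, fun i => ?_⟩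
  · have h2 := h1 (MvPolynomial.C c)
    have h3 := IsAlgClosure.equivOfEquiv_algebraMap ℂ ℂ e' (hv.1.aevalEquiv (MvPolynomial.C c))
    rw [h2] at h3
    have h4 : algebraMap (Algebra.adjoin K (Set.range v)) ℂ (hv.1.aevalEquiv (MvPolynomial.C c)) =
        algebraMap K ℂ c := by
      change ((hv.1.aevalEquiv (MvPolynomial.C c) : Algebra.adjoin K (Set.range v)) : ℂ) = _
      rw [AlgebraicIndependent.aevalEquiv_apply_coe]
      simp
    have h5 : algebraMap (Algebra.adjoin K (Set.range w)) ℂ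
        (hw.1.aevalEquiv (MvPolynomial.renameEquiv K e (MvPolynomial.C c))) = algebraMap K ℂ c := by
      change ((hw.1.aevalEquiv (MvPolynomial.renameEquiv K e (MvPolynomial.C c)) :
        Algebra.adjoin K (Set.range w)) : ℂ) = _
      rw [AlgebraicIndependent.aevalEquiv_apply_coe]
      simp
    rw [h4, h5] at h3
    exact h3
  · have h2 := h1 (MvPolynomial.X i)
    have h3 := IsAlgClosure.equivOfEquiv_algebraMap ℂ ℂ e' (hv.1.aevalEquiv (MvPolynomial.X i))
    rw [h2] at h3
    have h4 : algebraMap (Algebra.adjoin K (Set.range v)) ℂ (hv.1.aevalEquiv (MvPolynomial.X i)) =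
        v i := by
      change ((hv.1.aevalEquiv (MvPolynomial.X i) : Algebra.adjoin K (Set.range v)) : ℂ) = _
      rw [AlgebraicIndependent.aevalEquiv_apply_coe]
      simp
    have h5 : algebraMap (Algebra.adjoin K (Set.range w)) ℂ
        (hw.1.aevalEquiv (MvPolynomial.renameEquiv K e (MvPolynomial.X i))) = w (e i) := by
      change ((hw.1.aevalEquiv (MvPolynomial.renameEquiv K e (MvPolynomial.X i)) :
        Algebra.adjoin K (Set.range w)) : ℂ) = _
      rw [AlgebraicIndependent.aevalEquiv_apply_coe]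
      simp
    rw [h4, h5] at h3
    exact h3

/-- transcendental numbers over a countable field are conjugate -/
theorem exists_aut {K : Type} [Field K] [Algebra K ℂ] [Countable K] {y g : ℂ}
    (hy : Transcendental K y) (hg : Transcendental K g) :
    ∃ σ : ℂ ≃+* ℂ, (∀ c : K, σ (algebraMap K ℂ c) = algebraMap K ℂ c) ∧ σ y = g := by
  classical
  have hind : ∀ x : ℂ, Transcendental K x → AlgebraicIndepOn K id ({x} : Set ℂ) := by
    intro x hx
    exact (algebraicIndependent_unique_type_iff (ι := ({x} : Set ℂ))).2 (by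
      have : (default : ({x} : Set ℂ)) = ⟨x, rfl⟩ := Subsingleton.elim _ _
      rw [this]
      exact hx)
  obtain ⟨s, hys, hs⟩ := exists_isTranscendenceBasis_superset (hind y hy)
  obtain ⟨t, hgt, ht⟩ := exists_isTranscendenceBasis_superset (hind g hg)
  have hK : #K ≤ ℵ₀ := Cardinal.mk_le_aleph0
  have hC : ℵ₀ < #ℂ := by rw [Cardinal.mk_complex]; exact Cardinal.aleph0_lt_continuum
  have h1 := IsAlgClosed.cardinal_eq_cardinal_transcendence_basis_of_aleph0_lt' _ hs hK hC
  have h2 := IsAlgClosed.cardinal_eq_cardinal_transcendence_basis_of_aleph0_lt' _ ht hK hC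
  have h3 : #s = #t := h1.symm.trans h2
  obtain ⟨e₀⟩ := Cardinal.eq.1 h3
  have hys' : y ∈ s := hys rfl
  have hgt' : g ∈ t := hgt rfl
  obtain ⟨σ, hσ, hσe⟩ := exists_equiv hs ht (e₀.trans (Equiv.swap (e₀ ⟨y, hys'⟩) ⟨g, hgt'⟩))
  refine ⟨σ, hσ, ?_⟩
  have h4 := hσe ⟨y, hys'⟩
  simp only [Equiv.trans_apply, Equiv.swap_apply_left] at h4
  exact h4

end Pool.Agent.Y776.AxJ
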