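import Mathlib
import Pool.Agent.Y685.Clo

/-!
# The bracket of `sl₂`, and subspaces which are stable under a derivation
-/

set_option autoImplicit false

open Finset Module

noncomputable section

namespace Pool.Agent.Y776.AxJ

open Pool.Agent.Y685

/-- the bracket -/
def br (x y : Fin 3 → ℂ) : Fin 3 → ℂ :=
  ![2 * (x 0 * y 1 - x 1 * y 0), x 0 * y 2 - x 2 * y 0, 2 * (x 1 * y 2 - x 2 * y 1)]

theorem br0 (x y : Fin 3 → ℂ) : br x y 0 = 2 * (x 0 * y 1 - x 1 * y 0) := rfl
theorem br1 (x y : Fin 3 → ℂ) : br x y 1 = x 0 * y 2 - x 2 * y 0 := rfl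
theorem br2 (x y : Fin 3 → ℂ) : br x y 2 = 2 * (x 1 * y 2 - x 2 * y 1) := rfl

theorem ext3 {x y : Fin 3 → ℂ} (h0 : x 0 = y 0) (h1 : x 1 = y 1) (h2 : x 2 = y 2) : x = y := by
  funext i
  fin_cases i
  · exact h0
  · exact h1
  · exact h2

theorem br_add_left (x x' y : Fin 3 → ℂ) : br (x + x') y = br x y + br x' y := by
  apply ext3 <;> simp only [br0, br1, br2, Pi.add_apply] <;> ring

theorem br_add_right (x y y' : Fin 3 → ℂ) : br x (y + y') = br x y + br x y' := by
  apply ext3 <;> simp only [br0, br1, br2, Pi.add_apply] <;> ring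

theorem br_smul_left (c : ℂ) (x y : Fin 3 → ℂ) : br (c • x) y = c • br x y := by
  apply ext3 <;> simp only [br0, br1, br2, Pi.smul_apply, smul_eq_mul] <;> ring

theorem br_smul_right (c : ℂ) (x y : Fin 3 → ℂ) : br x (c • y) = c • br x y := by
  apply ext3 <;> simp only [br0, br1, br2, Pi.smul_apply, smul_eq_mul] <;> ring

theorem br_zero_left (y : Fin 3 → ℂ) : br 0 y = 0 := by
  apply ext3 <;> simp only [br0, br1, br2, Pi.zero_apply] <;> ring

theorem br_zero_right (x : Fin 3 → ℂ) : br x 0 = 0 := by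
  apply ext3 <;> simp only [br0, br1, br2, Pi.zero_apply] <;> ring

/-- the standard basis -/
def eb (k : Fin 3) : Fin 3 → ℂ := Pi.single k 1

theorem eb00 : eb 0 0 = 1 := rfl
theorem eb01 : eb 0 1 = 0 := rfl
theorem eb02 : eb 0 2 = 0 := rfl
theorem eb10 : eb 1 0 = 0 := rfl
theorem eb11 : eb 1 1 = 1 := rfl
theorem eb12 : eb 1 2 = 0 := rfl
theorem eb20 : eb 2 0 = 0 := rfl
theorem eb21 : eb 2 1 = 0 := rfl
theorem eb22 : eb 2 2 = 1 := rfl

/-- everything is a combination of the basis -/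
theorem eb_sum (x : Fin 3 → ℂ) : x = x 0 • eb 0 + x 1 • eb 1 + x 2 • eb 2 := by
  apply ext3 <;>
    simp only [Pi.add_apply, Pi.smul_apply, smul_eq_mul, eb00, eb01, eb02, eb10, eb11, eb12, eb20,
      eb21, eb22] <;> ring

/-- the standard basis consists of brackets -/
theorem eb_br (k : Fin 3) : ∃ x y : Fin 3 → ℂ, eb k = br x y := by
  fin_cases k
  · refine ⟨(1 / 2 : ℂ) • eb 0, eb 1, ?_⟩
    apply ext3 <;>
    simp only [br0, br1, br2, Pi.smul_apply, smul_eq_mul, eb00, eb01, eb02, eb10, eb11, eb12,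
      Fin.zero_eta, Fin.isValue] <;> ring
  · refine ⟨eb 0, eb 2, ?_⟩
    apply ext3 <;>
    simp only [br0, br1, br2, eb00, eb01, eb02, eb20, eb21, eb22, eb10, eb11, eb12, Fin.mk_one,
      Fin.isValue] <;> ring
  · refine ⟨(1 / 2 : ℂ) • eb 1, eb 2, ?_⟩
    apply ext3 <;>
    simp only [br0, br1, br2, Pi.smul_apply, smul_eq_mul, eb20, eb21, eb22, eb10, eb11, eb12,
      Fin.reduceFinMk, Fin.isValue] <;> ring

/-- a subspace which contains the basis -/
theorem top_of_eb {S : Submodule ℂ (Fin 3 → ℂ)} (h : ∀ k, eb k ∈ S) (x : Fin 3 → ℂ) : x ∈ S := by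
  rw [eb_sum x]
  exact S.add_mem (S.add_mem (S.smul_mem _ (h 0)) (S.smul_mem _ (h 1))) (S.smul_mem _ (h 2))

/-- **simplicity** -/
theorem simple {S : Submodule ℂ (Fin 3 → ℂ)} (h : ∀ x ∈ S, ∀ y, br x y ∈ S) {x : Fin 3 → ℂ}
    (hx : x ∈ S) (hx0 : x ≠ 0) (y : Fin 3 → ℂ) : y ∈ S := by
  have k0 : eb 0 ∈ S ∨ eb 2 ∈ S := by
    by_cases h2 : x 2 = 0
    · by_cases h0 : x 0 = 0
      · have h1 : x 1 ≠ 0 := by
          intro h1
          exact hx0 (ext3 h0 h1 h2)
        left
        have e1 := S.smul_mem (-(1 / (2 * x 1))) (h x hx (eb 0))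
        have e2 : (-(1 / (2 * x 1))) • br x (eb 0) = eb 0 := by
          apply ext3 <;>
          simp only [br0, br1, br2, Pi.smul_apply, smul_eq_mul, eb00, eb01, eb02, h0, h2] <;>
            field_simp <;> ring
        rwa [e2] at e1
      · right
        have e1 := S.smul_mem (1 / (2 * x 0)) (h _ (h x hx (eb 2)) (eb 2))
        have e2 : (1 / (2 * x 0)) • br (br x (eb 2)) (eb 2) = eb 2 := by
          apply ext3 <;>
          simp only [br0, br1, br2, Pi.smul_apply, smul_eq_mul, eb20, eb21, eb22, h2] <;>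
            field_simp <;> ring
        rwa [e2] at e1
    · left
      have e1 := S.smul_mem (1 / (2 * x 2)) (h _ (h x hx (eb 0)) (eb 0))
      have e2 : (1 / (2 * x 2)) • br (br x (eb 0)) (eb 0) = eb 0 := by
        apply ext3 <;>
        simp only [br0, br1, br2, Pi.smul_apply, smul_eq_mul, eb00, eb01, eb02] <;>
          field_simp <;> ring
      rwa [e2] at e1
  have k1 : eb 1 ∈ S := by
    rcases k0 with h0 | h2
    · have e1 := h _ h0 (eb 2)
      have e2 : br (eb 0) (eb 2) = eb 1 := by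
        apply ext3 <;>
        simp only [br0, br1, br2, eb00, eb01, eb02, eb20, eb21, eb22, eb10, eb11, eb12] <;> ring
      rwa [e2] at e1
    · have e1 := S.smul_mem (-1) (h _ h2 (eb 0))
      have e2 : (-1 : ℂ) • br (eb 2) (eb 0) = eb 1 := by
        apply ext3 <;>
        simp only [br0, br1, br2, Pi.smul_apply, smul_eq_mul, eb00, eb01, eb02, eb20, eb21, eb22,
          eb10, eb11, eb12] <;> ring
      rwa [e2] at e1
  have k2 : eb 0 ∈ S := by
    have e1 := S.smul_mem (-(1 / 2)) (h _ k1 (eb 0))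
    have e2 : (-(1 / 2) : ℂ) • br (eb 1) (eb 0) = eb 0 := by
      apply ext3 <;>
      simp only [br0, br1, br2, Pi.smul_apply, smul_eq_mul, eb00, eb01, eb02, eb10, eb11, eb12] <;>
        ring
    rwa [e2] at e1
  have k3 : eb 2 ∈ S := by
    have e1 := S.smul_mem (1 / 2) (h _ k1 (eb 2))
    have e2 : (1 / 2 : ℂ) • br (eb 1) (eb 2) = eb 2 := by
      apply ext3 <;>
      simp only [br0, br1, br2, Pi.smul_apply, smul_eq_mul, eb20, eb21, eb22, eb10, eb11, eb12] <;>
        ring
    rwa [e2] at e1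
  refine top_of_eb (fun k => ?_) y
  fin_cases k
  · exact k2
  · exact k1
  · exact k3

/-- **subspaces which are stable under a derivation are spanned by constant vectors** -/
theorem span_const (D : Derivation ℚ ℂ ℂ) {ι : Type} [Fintype ι] (S : Submodule ℂ (ι → ℂ))
    (hD : ∀ s ∈ S, (fun i => D (s i)) ∈ S) :
    S ≤ Submodule.span ℂ {s | s ∈ S ∧ ∀ i, D (s i) = 0} := by
  classical
  have key : ∀ n : ℕ, ∀ Z : Finset ι, Z.card = n → ∀ s ∈ S, (∀ i ∉ Z, s i = 0) →
      s ∈ Submodule.span ℂ {s | s ∈ S ∧ ∀ i, D (s i) = 0} := by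
    intro n
    induction n with
    | zero =>
      intro Z hZ s _ hs0
      have : s = 0 := by
        funext i
        refine hs0 i ?_
        rw [Finset.card_eq_zero.1 hZ]
        exact Finset.notMem_empty i
      rw [this]
      exact Submodule.zero_mem _
    | succ n ih =>
      intro Z hZ s hs hs0
      by_cases h0 : s = 0
      · rw [h0]
        exact Submodule.zero_mem _
      obtain ⟨c, ⟨hcS, hcZ⟩, hc0, hcD⟩ := exists_const_vec D {a | a ∈ S ∧ ∀ i ∉ Z, a i = 0}
        (fun a ha i _ => ⟨by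
          have h1 := S.smul_mem (a i)⁻¹ ha.1
          have h2 : (a i)⁻¹ • a = fun j => a j / a i := by
            funext j
            rw [Pi.smul_apply, smul_eq_mul]
            ring
          rwa [h2] at h1, fun j hj => by
          change a j / a i = 0
          rw [ha.2 j hj, zero_div]⟩)
        (fun a ha => ⟨hD a ha.1, fun j hj => by
          change D (a j) = 0
          rw [ha.2 j hj, map_zero]⟩) (a := s) ⟨hs, hs0⟩ h0
      obtain ⟨i, hi⟩ := Function.ne_iff.1 hc0
      have hi : c i ≠ 0 := hi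
      have hiZ : i ∈ Z := by
        by_contra hcon
        exact hi (hcZ i hcon)
      have h1 : s - (s i / c i) • c ∈ Submodule.span ℂ {s | s ∈ S ∧ ∀ i, D (s i) = 0} := by
        refine ih (Z.erase i) (by rw [Finset.card_erase_of_mem hiZ, hZ]; rfl) _
          (S.sub_mem hs (S.smul_mem _ hcS)) (fun j hj => ?_)
        rw [Pi.sub_apply, Pi.smul_apply, smul_eq_mul]
        by_cases hji : j = i
        · subst hji
          rw [div_mul_cancel₀ _ hi, sub_self]
        · have hjZ : j ∉ Z := fun h => hj (Finset.mem_erase.2 ⟨hji, h⟩)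
          rw [hs0 j hjZ, hcZ j hjZ, mul_zero, sub_zero]
      have h2 := Submodule.add_mem _ h1 (Submodule.smul_mem _ (s i / c i)
        (Submodule.subset_span (show c ∈ {s | s ∈ S ∧ ∀ i, D (s i) = 0} from ⟨hcS, hcD⟩)))
      rwa [sub_add_cancel] at h2
  exact fun s hs => key _ Finset.univ rfl s hs fun i hi => absurd (Finset.mem_univ i) hi

variable {n : ℕ}

/-- the bracket in the product -/
def brn (x y : Fin n → Fin 3 → ℂ) : Fin n → Fin 3 → ℂ := fun i => br (x i) (y i)

/-- **generation** -/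
theorem generate (S : Submodule ℂ (Fin n → Fin 3 → ℂ)) (hb : ∀ x ∈ S, ∀ y ∈ S, brn x y ∈ S)
    (h1 : ∀ i, ∀ a : Fin 3 → ℂ, ∃ s ∈ S, s i = a)
    (h2 : ∀ i k, i ≠ k → ∀ a : Fin 3 → ℂ, ∃ s ∈ S, s i = a ∧ s k = 0) (x : Fin n → Fin 3 → ℂ) :
    x ∈ S := by
  classical
  have key : ∀ i, ∀ Z : Finset (Fin n), i ∉ Z → ∀ a : Fin 3 → ℂ, ∃ s ∈ S, s i = a ∧ ∀ k ∈ Z, s k = 0 := by
    intro i Z
    induction Z using Finset.induction_on with
    | empty =>
      intro _ a
      obtain ⟨s, hs, hsa⟩ := h1 i a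
      exact ⟨s, hs, hsa, fun k hk => absurd hk (Finset.notMem_empty k)⟩
    | insert k Z hk ih =>
      intro hi a
      rw [Finset.mem_insert, not_or] at hi
      let W : Submodule ℂ (Fin 3 → ℂ) :=
        { carrier := {a | ∃ s ∈ S, s i = a ∧ ∀ j ∈ insert k Z, s j = 0}
          add_mem' := by
            rintro a b ⟨s, hs, hsa, hs0⟩ ⟨t, ht, hta, ht0⟩
            exact ⟨s + t, S.add_mem hs ht, by rw [Pi.add_apply, hsa, hta], fun j hj => by
              rw [Pi.add_apply, hs0 j hj, ht0 j hj, add_zero]⟩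
          zero_mem' := ⟨0, S.zero_mem, rfl, fun _ _ => rfl⟩
          smul_mem' := by
            rintro c a ⟨s, hs, hsa, hs0⟩
            exact ⟨c • s, S.smul_mem c hs, by rw [Pi.smul_apply, hsa], fun j hj => by
              rw [Pi.smul_apply, hs0 j hj, smul_zero]⟩ }
      refine top_of_eb (S := W) (fun l => ?_) a
      obtain ⟨u, v, huv⟩ := eb_br l
      obtain ⟨s, hs, hsu, hs0⟩ := ih hi.2 u
      obtain ⟨t, ht, htv, htk⟩ := h2 i k hi.1 v
      refine ⟨brn s t, hb s hs t ht, ?_, fun j hj => ?_⟩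
      · rw [huv, ← hsu, ← htv]
        rfl
      · rw [Finset.mem_insert] at hj
        change br (s j) (t j) = 0
        rcases hj with rfl | hj
        · rw [htk, br_zero_right]
        · rw [hs0 j hj, br_zero_left]
  have h3 : ∀ i, ∃ s ∈ S, s i = x i ∧ ∀ k, k ≠ i → s k = 0 := by
    intro i
    obtain ⟨s, hs, hsa, hs0⟩ := key i (Finset.univ.erase i) (Finset.notMem_erase _ _) (x i)
    exact ⟨s, hs, hsa, fun k hk => hs0 k (Finset.mem_erase.2 ⟨hk, Finset.mem_univ _⟩)⟩
  choose s hs hsa hs0 using h3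
  have h4 : x = ∑ i, s i := by
    funext k
    rw [Finset.sum_apply, Finset.sum_eq_single k]
    · exact (hsa k).symm
    · intro i _ hik
      exact hs0 i k (Ne.symm hik)
    · intro h
      exact absurd (Finset.mem_univ k) h
  rw [h4]
  exact S.sum_mem fun i _ => hs i

end Pool.Agent.Y776.AxJ
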