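import Mathlib
import Pool.Agent.Y776.AxJ.Rep
import Pool.Agent.Y776.AxJ.Aut
import Pool.Agent.Y776.Chain

/-!
# The key lemma: specialisation by automorphisms
-/

set_option autoImplicit false

open Finset Module

noncomputable section

namespace Pool.Agent.Y776.AxJ

open Pool.Agent.Y685 Pool.Agent.TH813.Ell
open Pool.Agent.TH813.Rel (DF MK exists_derF)

/-- the closure of a set over the rational numbers -/
abbrev cl0 (S : Set ℂ) : IntermediateField ℚ ℂ := clo ⊥ S

theorem mem_DF_bot (D : Derivation ℚ ℂ ℂ) : D ∈ DF (⊥ : IntermediateField ℚ ℂ) := by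
  intro z hz
  rw [IntermediateField.mem_bot] at hz
  obtain ⟨r, rfl⟩ := hz
  exact D.map_algebraMap r

theorem mem_cl0 {S : Set ℂ} {z : ℂ} :
    z ∈ cl0 S ↔ ∀ D : Derivation ℚ ℂ ℂ, (∀ s ∈ S, D s = 0) → D z = 0 :=
  ⟨fun h D hD => h D (mem_DF_bot D) hD, fun h D _ hD => h D hD⟩

theorem countable_adjoin {S : Set ℂ} (hS : S.Countable) :
    (IntermediateField.adjoin ℚ S : Set ℂ).Countable := by
  have h1 : (IntermediateField.adjoin ℚ S : Set ℂ) =
      (Subfield.closure (Set.range (algebraMap ℚ ℂ) ∪ S) : Set ℂ) := rfl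
  rw [h1]
  exact countable_closure ((Set.countable_range _).union hS)

/-- closures of countable sets are countable -/
theorem countable_cl0 {S : Set ℂ} (hS : S.Countable) : (cl0 S : Set ℂ).Countable := by
  classical
  have hK := countable_adjoin hS
  set K := IntermediateField.adjoin ℚ S with hKdef
  have : Countable K := hK.to_subtype
  refine (Algebraic.countable K ℂ).mono fun z hz => ?_
  by_contra hcon
  have h1 : AlgebraicIndependent K (fun _ : Unit => z) :=
    algebraicIndependent_unique_type_iff.2 hcon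
  obtain ⟨D, hD, hD1⟩ := exists_derF K h1 (fun _ => 1)
  have h2 := (mem_cl0.1 hz) D fun s hs => hD s (IntermediateField.subset_adjoin _ _ hs)
  rw [hD1 ()] at h2
  exact one_ne_zero h2

/-- closed fields are algebraically closed -/
theorem transc_cl0 {S : Set ℂ} {z : ℂ} (hz : z ∉ cl0 S) : Transcendental (cl0 S) z := by
  intro halg
  apply hz
  have h1 : z ∈ clo (cl0 S) ∅ := by
    rw [mem_clo_iff, Pool.Agent.TH813.Rel.mem_cl]
    exact halg.extendScalars (algebraMap (cl0 S) (Algebra.adjoin (cl0 S) (∅ : Set ℂ))).injective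
  rw [mem_cl0]
  intro D hD
  refine h1 D ?_ (fun s hs => absurd hs (Set.notMem_empty s))
  intro w hw
  exact mem_cl0.1 hw D hD

/-- closures are finitary -/
theorem exists_fin {C : IntermediateField ℚ ℂ} {S : Set ℂ} {z : ℂ} (hz : z ∈ clo C S) :
    ∃ I : Set ℂ, I.Finite ∧ (∀ c ∈ I, c ∈ C) ∧ z ∈ cl0 (I ∪ S) := by
  have h1 : z ∈ cl0 ((C : Set ℂ) ∪ S) := by
    rw [mem_cl0]
    intro D hD
    exact hz D (fun c hc => hD c (Or.inl hc)) fun s hs => hD s (Or.inr hs)
  rw [mem_clo_iff] at h1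
  obtain ⟨I, hI, hIf, -, hzI⟩ := Matroid.exists_mem_finite_closure_of_mem_closure h1
  refine ⟨I ∩ C, hIf.subset Set.inter_subset_left, fun c hc => hc.2, ?_⟩
  rw [← mem_clo_iff] at hzI
  rw [mem_cl0] at hzI ⊢
  intro D hD
  refine hzI D fun s hs => ?_
  rcases hI hs with h | h
  · exact hD s (Or.inl ⟨hs, h⟩)
  · exact hD s (Or.inr h)

/-- conjugate derivations -/
def cnj (σ : ℂ ≃+* ℂ) (δ : Derivation ℚ ℂ ℂ) : Derivation ℚ ℂ ℂ :=
  Derivation.mk' (R := ℚ)
    { toFun := fun z => σ (δ (σ.symm z))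
      map_add' := fun a c => by simp only [map_add]
      map_smul' := fun r a => by
        rw [RingHom.id_apply, Rat.smul_def, Rat.smul_def, map_mul, map_ratCast, dmul]
        have h1 : δ (r : ℂ) = 0 := δ.map_algebraMap r
        rw [h1, zero_mul, zero_add, map_mul, map_ratCast] }
    (fun a c => by
      change σ (δ (σ.symm (a * c))) = a * σ (δ (σ.symm c)) + c * σ (δ (σ.symm a))
      rw [map_mul, dmul, map_add, map_mul, map_mul, RingEquiv.apply_symm_apply,
        RingEquiv.apply_symm_apply]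
      ring)

theorem cnj_apply (σ : ℂ ≃+* ℂ) (δ : Derivation ℚ ℂ ℂ) (z : ℂ) :
    cnj σ δ z = σ (δ (σ.symm z)) := rfl

variable {x y : Qd} {b : ℂ}

/-- the four numbers can be moved freely over the constants of a horizontal derivation -/
def Free (b : ℂ) (x : Qd) : Prop := ∀ D : Derivation ℚ ℂ ℂ, D b = 0 → Th b x D = 0 → D (gg x) ≠ 0 →
  ∀ v : Fin 4 → ℂ, ∃ δ ∈ DF (Cst D), δ x.t = v 0 ∧ δ x.h = v 1 ∧ δ x.p = v 2 ∧ δ x.q = v 3

/-- prescribed values of the form and of the derivative of the parameter -/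
theorem exists_vals (h : x.Ok) (hb : b ≠ 0) (a : Fin 3 → ℂ) (s : ℂ) : ∃ v : Fin 4 → ℂ,
    ∀ δ : Derivation ℚ ℂ ℂ, δ x.t = v 0 → δ x.h = v 1 → δ x.p = v 2 → δ x.q = v 3 →
      Th b x δ = a ∧ δ (gg x) = s := by
  have hp := h.p0
  have hq := h.q0
  have hd := h.dl
  have hd' : x.p ^ 3 - 27 * x.q ^ 2 ≠ 0 := hd
  set B : ℂ := s * (3 * x.q ^ 3) / (2 * x.p ^ 2 * x.dl) with hB
  set V : ℂ := x.t * a 0 - a 1 with hV
  set A : ℂ := V - B * x.h with hA
  refine ⟨![a 2 - x.t ^ 2 * a 0 + 2 * x.t * V + B / b,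
    -(a 0 / b) - 2 * A * x.h - B * x.h ^ 2 - B * x.p / 12, -4 * A * x.p - 6 * B * x.q,
    -6 * A * x.q - B * x.p ^ 2 / 3], fun δ h0 h1 h2 h3 => ?_⟩
  replace h0 : δ x.t = a 2 - x.t ^ 2 * a 0 + 2 * x.t * V + B / b := h0
  replace h1 : δ x.h = -(a 0 / b) - 2 * A * x.h - B * x.h ^ 2 - B * x.p / 12 := h1
  replace h2 : δ x.p = -4 * A * x.p - 6 * B * x.q := h2
  replace h3 : δ x.q = -6 * A * x.q - B * x.p ^ 2 / 3 := h3
  have eA : fa x δ = A := by
    rw [fa, h2, h3, div_eq_iff (mul_ne_zero (by norm_num) hd), Qd.dl]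
    ring
  have eB : fb x δ = B := by
    rw [fb, h2, h3, div_eq_iff (mul_ne_zero (by norm_num) hd), Qd.dl]
    ring
  refine ⟨?_, ?_⟩
  · have eu : fu b x δ = a 0 := by
      rw [fu, eA, eB, h1]
      field_simp
      ring
    have ev : fv x δ = V := by
      rw [fv, eA, eB, hA]
      ring
    have es : fs b x δ = a 2 - x.t ^ 2 * a 0 + 2 * x.t * V := by
      rw [fs, eB, h0]
      ring
    apply ext3
    · rw [Th0, eu]
    · rw [Th1, eu, ev, hV]
      ring
    · rw [Th2, eu, ev, es]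
      ring
  · have e1 : δ (gg x) = 2 / 3 * fb x δ * x.p ^ 2 * x.dl / x.q ^ 3 := by
      rw [d_gg h, Qd.dl]
      field_simp
      ring
    rw [e1, eB, hB]
    field_simp

theorem Free.th (hF : Free b x) (h : x.Ok) (hb : b ≠ 0) {D : Derivation ℚ ℂ ℂ} (hDb : D b = 0)
    (hD : Th b x D = 0) (hg : D (gg x) ≠ 0) (a : Fin 3 → ℂ) (s : ℂ) :
    ∃ δ ∈ DF (Cst D), Th b x δ = a ∧ δ (gg x) = s := by
  obtain ⟨v, hv⟩ := exists_vals h hb a s
  obtain ⟨δ, hδ, h0, h1, h2, h3⟩ := hF D hDb hD hg v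
  exact ⟨δ, hδ, hv δ h0 h1 h2 h3⟩

theorem RR_zero : RR b x 0 = 0 := by
  apply ext3 <;> simp only [Pi.zero_apply, RR0, RR1, RR2] <;> ring

theorem RR_inj (h : x.Ok) (hb : b ≠ 0) {X : Fin 3 → ℂ} (hX : RR b x X = 0) : X = 0 := by
  have key : ∀ Y, pr X Y = 0 := by
    intro Y
    rw [← pr_RR h hb X Y, hX]
    simp only [pr, Pi.zero_apply]
    ring
  have k0 := key (eb 2)
  have k1 := key (eb 1)
  have k2 := key (eb 0)
  simp only [pr, eb00, eb01, eb02, eb10, eb11, eb12, eb20, eb21, eb22] at k0 k1 k2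
  apply ext3
  · rw [Pi.zero_apply]
    linear_combination -k0
  · rw [Pi.zero_apply]
    linear_combination k1 / 2
  · rw [Pi.zero_apply]
    linear_combination -k2

theorem br_all {X : Fin 3 → ℂ} (h : ∀ a, br a X = 0) : X = 0 := by
  have h0 := congrFun (h (eb 0))
  have h1 := congrFun (h (eb 1))
  have e1 := h0 0
  have e2 := h0 1
  have e3 := h1 0
  simp only [br0, br1, eb00, eb01, eb02, eb10, eb11, Pi.zero_apply] at e1 e2 e3
  apply ext3
  · rw [Pi.zero_apply]
    linear_combination -e3 / 2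
  · rw [Pi.zero_apply]
    linear_combination e1 / 2
  · rw [Pi.zero_apply]
    linear_combination e2

theorem br_map (σ : ℂ ≃+* ℂ) (a c : Fin 3 → ℂ) (i : Fin 3) :
    σ (br a c i) = br (fun j => σ (a j)) (fun j => σ (c j)) i := by
  fin_cases i
  · change σ (br a c 0) = br (fun j => σ (a j)) (fun j => σ (c j)) 0
    rw [br0, br0]
    simp only [map_mul, map_sub, map_ofNat]
  · change σ (br a c 1) = br (fun j => σ (a j)) (fun j => σ (c j)) 1
    rw [br1, br1]
    simp only [map_mul, map_sub]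
  · change σ (br a c 2) = br (fun j => σ (a j)) (fun j => σ (c j)) 2
    rw [br2, br2]
    simp only [map_mul, map_sub, map_ofNat]

theorem rh_map (σ : ℂ ≃+* ℂ) (g : ℂ) (i : Fin 3) : σ (rh g i) = rh (σ g) i := by
  fin_cases i
  · change σ (rh g 0) = rh (σ g) 0
    rw [rh0, rh0]
    simp only [map_mul, map_sub, map_ofNat, map_div₀, map_one]
  · change σ (rh g 1) = rh (σ g) 1
    rw [rh1, rh1]
    simp only [map_mul, map_sub, map_ofNat, map_div₀]
  · change σ (rh g 2) = rh (σ g) 2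
    rw [rh2, rh2]
    simp only [map_mul, map_sub, map_ofNat, map_div₀]

/-- **the key lemma** -/
theorem no_tensor (hx : x.Ok) (hb : b ≠ 0) (hF : Free b x) {D : Derivation ℚ ℂ ℂ} (hDb : D b = 0)
    (hDx : Th b x D = 0) (hDg : D (gg x) ≠ 0) {w : ℂ} {δ' : Derivation ℚ ℂ ℂ}
    (hδ' : δ' ∈ DF (Cst D)) (h1 : δ' (gg x) = 1) (h2 : δ' w = 0) (hw : w ∉ clo (Cst D) {gg x})
    (N : Fin 3 → ℂ) (hN : ∀ c, N c ∈ clo (Cst D) {gg x, w})
    (hδN : ∀ c, δ' (N c) = br (rh (gg x)) N c) : N = 0 := by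
  classical
  choose I hIf hIC hIN using fun c => exists_fin (hN c)
  set J : Set ℂ := {b} ∪ ⋃ c, I c with hJ
  have hJc : J.Countable := (Set.countable_singleton b).union
    (Set.countable_iUnion fun c => (hIf c).countable)
  have hJC : ∀ c ∈ J, D c = 0 := by
    rintro c (hc | hc)
    · rw [hc]
      exact hDb
    · obtain ⟨i, hi⟩ := Set.mem_iUnion.1 hc
      exact hIC i c hi
  have hJN : ∀ c, N c ∈ cl0 (J ∪ {gg x, w}) := by
    intro c
    rw [mem_cl0]
    intro E hE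
    refine mem_cl0.1 (hIN c) E fun s hs => hE s ?_
    rcases hs with hs | hs
    · exact Or.inl (Or.inr (Set.mem_iUnion.2 ⟨c, hs⟩))
    · exact Or.inr hs
  -- the field of definition
  set K := cl0 (J ∪ {gg x}) with hK
  have hKc : Countable K :=
    (countable_cl0 (hJc.union (Set.countable_singleton _))).to_subtype
  have hwK : w ∉ K := by
    intro hcon
    apply hw
    intro E hE hEg
    refine mem_cl0.1 hcon E fun s hs => ?_
    rcases hs with hs | hs
    · exact hE s (hJC s hs)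
    · exact hEg s hs
  set T := cl0 (J ∪ {x.t, x.h, x.p, x.q}) with hT
  have hTc : (T : Set ℂ).Countable := countable_cl0 (hJc.union (Set.toFinite _).countable)
  obtain ⟨g, hg⟩ : ∃ g : ℂ, g ∉ (T : Set ℂ) := by
    by_contra hcon
    push Not at hcon
    have : (Set.univ : Set ℂ).Countable := hTc.mono fun z _ => hcon z
    exact not_countable_complex this
  have hKT : K ≤ T := by
    intro z hz
    rw [hT, mem_cl0]
    intro E hE
    refine mem_cl0.1 hz E fun s hs => ?_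
    rcases hs with hs | hs
    · exact hE s (Or.inl hs)
    · rw [Set.mem_singleton_iff.1 hs, gg, ddiv _ _ (pow_ne_zero 2 hx.q0)]
      have e1 : E x.p = 0 := hE _ (Or.inr (by simp))
      have e2 : E x.q = 0 := hE _ (Or.inr (by simp))
      rw [show x.p ^ 3 = x.p * x.p ^ 2 by ring, dmul, dsq, dsq, e1, e2]
      ring
  have hgK : g ∉ K := fun h => hg (hKT h)
  obtain ⟨σ, hσ, hσw⟩ := exists_aut (transc_cl0 hwK) (transc_cl0 hgK)
  have hσK : ∀ z ∈ K, σ z = z := fun z hz => hσ ⟨z, hz⟩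
  have hσK' : ∀ z ∈ K, σ.symm z = z := fun z hz => by
    rw [RingEquiv.symm_apply_eq, hσK z hz]
  have hJK : ∀ z ∈ J, z ∈ K := fun z hz => mem_cl0.2 fun E hE => hE z (Or.inl hz)
  have hgxK : gg x ∈ K := mem_cl0.2 fun E hE => hE _ (Or.inr rfl)
  -- the horizontal derivation
  obtain ⟨E, hEJ, hEg, hEth, hEgg⟩ : ∃ E : Derivation ℚ ℂ ℂ, (∀ z ∈ J, E z = 0) ∧ E g = 0 ∧
      Th b x E = 0 ∧ E (gg x) = 1 := by
    obtain ⟨v, hv⟩ := exists_vals hx hb 0 1
    obtain ⟨δ, hδ, e0, e1, e2, e3⟩ := hF D hDb hDx hDg v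
    have h4 : ∃ δ₂ : Derivation ℚ ℂ ℂ, (∀ s ∈ J ∪ {x.t, x.h, x.p, x.q}, δ₂ s = 0) ∧ δ₂ g ≠ 0 := by
      by_contra hcon
      push Not at hcon
      exact hg (mem_cl0.2 hcon)
    obtain ⟨δ₂, h5, h6⟩ := h4
    have f0 : δ₂ x.t = 0 := h5 _ (Or.inr (by simp))
    have f1 : δ₂ x.h = 0 := h5 _ (Or.inr (by simp))
    have f2 : δ₂ x.p = 0 := h5 _ (Or.inr (by simp))
    have f3 : δ₂ x.q = 0 := h5 _ (Or.inr (by simp))
    have happ : ∀ z, (δ - (δ g / δ₂ g) • δ₂) z = δ z - δ g / δ₂ g * δ₂ z := fun z => by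
      rw [Derivation.sub_apply, Derivation.smul_apply, smul_eq_mul]
    refine ⟨δ - (δ g / δ₂ g) • δ₂, fun z hz => ?_, ?_, ?_⟩
    · rw [happ, h5 z (Or.inl hz), hδ z (hJC z hz)]
      ring
    · rw [happ, div_mul_cancel₀ _ h6, sub_self]
    · refine hv _ ?_ ?_ ?_ ?_
      · rw [happ, f0, e0]; ring
      · rw [happ, f1, e1]; ring
      · rw [happ, f2, e2]; ring
      · rw [happ, f3, e3]; ring
  have hEb : E b = 0 := hEJ b (Or.inl rfl)
  -- the conjugate vector
  set ν : Fin 3 → ℂ := fun c => σ (N c) with hν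
  have hνm : ∀ c, ν c ∈ cl0 (J ∪ {gg x, g}) := by
    intro c
    rw [mem_cl0]
    intro E' hE'
    have h4 := mem_cl0.1 (hJN c) (cnj σ.symm E') (by
      rintro s (hs | hs | hs)
      · rw [cnj_apply, RingEquiv.symm_symm, hσK s (hJK s hs), hE' s (Or.inl hs), map_zero]
      · rw [hs, cnj_apply, RingEquiv.symm_symm, hσK _ hgxK, hE' _ (Or.inr (Or.inl rfl)), map_zero]
      · rw [Set.mem_singleton_iff.1 hs, cnj_apply, RingEquiv.symm_symm, hσw,
          hE' _ (Or.inr (Or.inr rfl)), map_zero])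
    rw [cnj_apply, RingEquiv.symm_symm] at h4
    exact (map_eq_zero σ.symm).1 h4
  have hEν : ∀ c, E (ν c) = br (rh (gg x)) ν c := by
    intro c
    have h4 : E (ν c) = cnj σ δ' (ν c) := by
      refine der_ext (C := ⊥) (S := J ∪ {gg x, g}) (mem_DF_bot _) (mem_DF_bot _) ?_ (hνm c)
      rintro s (hs | hs | hs)
      · rw [hEJ s hs, cnj_apply, hσK' s (hJK s hs), hδ' s (hJC s hs), map_zero]
      · rw [hs, hEgg, cnj_apply, hσK' _ hgxK, h1, map_one]
      · rw [Set.mem_singleton_iff.1 hs, hEg, cnj_apply, ← hσw, RingEquiv.symm_apply_apply, h2,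
          map_zero]
    rw [h4, cnj_apply, hν, RingEquiv.symm_apply_apply, hδN, br_map]
    congr 1
    congr 1
    funext j
    rw [rh_map, hσK _ hgxK]
  have hAvE : Av x E = rh (gg x) := by rw [Av_eq hx, hEgg, one_smul]
  have hDeb : ∀ (E' : Derivation ℚ ℂ ℂ) (k i : Fin 3), E' (eb k i) = 0 := by
    intro E' k i
    rw [eb, Pi.single_apply]
    split_ifs
    · exact done' E'
    · exact map_zero E'
  have hck : ∀ k, E (pr ν (RR b x (eb k))) = 0 := by
    intro k
    rw [d_pr, d_RR hx hb hEb (hDeb E k), hEth, br_zero_left, RR_zero, zero_add, hAvE,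
      show (fun i => E (ν i)) = br (rh (gg x)) ν from funext hEν]
    exact pr_br _ _ _
  set κ : Fin 3 → ℂ := ![-pr ν (RR b x (eb 2)), pr ν (RR b x (eb 1)) / 2, -pr ν (RR b x (eb 0))]
    with hκ
  have hκν : RR b x κ = ν := RR_inv hx hb ν
  have hEκ : ∀ i, E (κ i) = 0 := by
    intro i
    fin_cases i
    · change E (-pr ν (RR b x (eb 2))) = 0
      rw [map_neg, hck, neg_zero]
    · change E (pr ν (RR b x (eb 1)) / 2) = 0
      rw [dinvn, hck, zero_div]
    · change E (-pr ν (RR b x (eb 0))) = 0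
      rw [map_neg, hck, neg_zero]
  have hκ0 : κ = 0 := by
    apply br_all
    intro a
    obtain ⟨δ, hδ, h4, h5⟩ := hF.th hx hb hEb hEth (by rw [hEgg]; exact one_ne_zero) a 0
    have h6 : ∀ c, δ (ν c) = 0 := by
      intro c
      refine mem_cl0.1 (hνm c) δ ?_
      rintro s (hs | hs | hs)
      · exact hδ s (hEJ s hs)
      · rw [hs, h5]
      · rw [Set.mem_singleton_iff.1 hs]
        exact hδ g hEg
    have h7 := d_RR (X := κ) hx hb (hδ b hEb) (fun i => hδ _ (hEκ i))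
    rw [h4, Av_eq hx, h5, zero_smul, br_zero_left, add_zero, hκν] at h7
    apply RR_inj hx hb
    rw [← h7]
    funext c
    exact h6 c
  have hν0 : ν = 0 := by rw [← hκν, hκ0, RR_zero]
  funext c
  have h8 : σ (N c) = 0 := congrFun hν0 c
  exact (map_eq_zero σ).1 h8

end Pool.Agent.Y776.AxJ
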