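import Mathlib
import Pool.Agent.Y776.AxJ.JFun
import Pool.Agent.Y776.AxJ.Gen

/-!
# The rank theorem for functions
-/

set_option autoImplicit false

open Finset Module Filter Topology

noncomputable section

namespace Pool.Agent.Y776.AxJ

open H667R3 Pool.Agent.W245.EB
open Pool.Agent.Y685 Pool.Agent.TH813.Ell Pool.Agent.Y776 Pool.Agent.Y776.Fam
open Pool.Agent.TH813.Rel (DF MK exists_derF bracket_mem rk_le_of_subset_cl)
open Pool.Agent.Y776.Cv (FInd eRk_anti)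

variable {n s : ℕ} {U : Set ℂ} {τ : Fin n → ℂ → ℂ} {w : Fin s → ℂ → ℂ} {z₀ : ℂ}
  {F : IntermediateField ℚ ℂ}

/-- the functions -/
structure Fmj (U : Set ℂ) (τ : Fin n → ℂ → ℂ) (w : Fin s → ℂ → ℂ) : Prop where
  op : IsOpen U
  conn : IsPreconnected U
  ne : U.Nonempty
  ta : ∀ i, AnalyticOnNhd ℂ (τ i) U
  im : ∀ i, ∀ z ∈ U, 0 < (τ i z).im
  nc : ∀ i, ∀ c, ∃ z ∈ U, τ i z ≠ c
  ji : ∀ i k, i ≠ k → FInd U (fun (m : Fin 2) (z : ℂ) => jf (τ (![i, k] m) z))
  wa : ∀ k, AnalyticOnNhd ℂ (w k) U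
  wi : IndC U w

/-- names of the base functions -/
abbrev Nb (n s : ℕ) : Type := (Fin n × Fin 5) ⊕ (Fin s ⊕ Fin s)

/-- the functions on the upper half-plane -/
def b5 : Fin 5 → ℂ → ℂ := ![fun t => t, h1, fun t => (LC t).g₂, fun t => (LC t).g₃, jf]

theorem b5_an (m : Fin 5) : AnalyticOnNhd ℂ (b5 m) {t : ℂ | 0 < t.im} := by
  fin_cases m
  · exact analyticOnNhd_id
  · exact an_h
  · exact an_p
  · exact an_q
  · exact an_j

/-- the base functions -/
def f0 (τ : Fin n → ℂ → ℂ) (w : Fin s → ℂ → ℂ) : Nb n s → ℂ → ℂ :=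
  Sum.elim (fun p z => b5 p.2 (τ p.1 z)) (Sum.elim w (fun k z => Complex.exp (w k z)))

theorem f0_an (h : Fmj U τ w) (k : Nb n s) : AnalyticOnNhd ℂ (f0 τ w k) U := by
  intro z hz
  rcases k with ⟨i, m⟩ | k | k
  · exact AnalyticAt.fun_comp (g := b5 m) (f := τ i) (b5_an m _ (h.im i z hz)) (h.ta i z hz)
  · exact h.wa k z hz
  · exact (h.wa k z hz).cexp

/-- all derivatives of the base functions -/
def fall (τ : Fin n → ℂ → ℂ) (w : Fin s → ℂ → ℂ) (k : Nb n s × ℕ) : ℂ → ℂ :=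
  deriv^[k.2] (f0 τ w k.1)

theorem fall_an (h : Fmj U τ w) (k : Nb n s × ℕ) : AnalyticOnNhd ℂ (fall τ w k) U :=
  (f0_an h k.1).iterated_deriv k.2

/-- generic points -/
structure Gpt (U : Set ℂ) (τ : Fin n → ℂ → ℂ) (w : Fin s → ℂ → ℂ) (F : IntermediateField ℚ ℂ)
    (z₀ : ℂ) : Prop where
  mem : z₀ ∈ U
  tr : ¬ IsAlgebraic F z₀
  gn : Gn U F (fall τ w) z₀
  dt : ∀ i, deriv (τ i) z₀ ≠ 0
  t0 : ∀ i, τ i z₀ ∉ T0
  wi : ∀ m : Fin s → ℤ, m ≠ 0 → deriv (fun z => ∑ k, (m k : ℂ) * w k z) z₀ ≠ 0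

theorem deriv_ne (hU : IsOpen U) (hc : IsPreconnected U) (hne : U.Nonempty) {f : ℂ → ℂ}
    (hf : AnalyticOnNhd ℂ f U) (hn : ∀ c, ∃ z ∈ U, f z ≠ c) : ∃ z ∈ U, deriv f z ≠ 0 := by
  by_contra hcon
  push Not at hcon
  obtain ⟨w, hw⟩ := hne
  obtain ⟨z, hz, hzne⟩ := hn (f w)
  exact hzne (hU.is_const_of_deriv_eq_zero hc
    (fun x hx => (hf x hx).differentiableAt.differentiableWithinAt)
    (fun x hx => hcon x hx) hz hw)

theorem countable_Gpt (h : Fmj U τ w) (hF : (F : Set ℂ).Countable) :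
    {z | z ∈ U ∧ ¬ Gpt U τ w F z}.Countable := by
  classical
  have hFc : Countable F := hF.to_subtype
  have c1 : {z : ℂ | IsAlgebraic F z}.Countable := Algebraic.countable F ℂ
  have c2 := countable_Gn (κ := Nb n s × ℕ) h.conn hF (fall_an h)
  have c3 := countable_fam h.conn (ι := Fin n) (fun i => deriv (τ i)) (fun i => (h.ta i).deriv)
    (fun i => deriv_ne h.op h.conn h.ne (h.ta i) (h.nc i))
  have c4 : {z | z ∈ U ∧ ∃ i, τ i z ∈ T0}.Countable := by
    refine (Set.countable_iUnion fun i : Fin n => T0_spec.1.biUnion (fun c _ =>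
      countable_zeros h.conn (f := fun z => τ i z - c) ((h.ta i).sub analyticOnNhd_const) ?_)).mono ?_
    · obtain ⟨z, hz, hzne⟩ := h.nc i c
      exact ⟨z, hz, sub_ne_zero.2 hzne⟩
    · rintro z ⟨hz, i, hT⟩
      exact Set.mem_iUnion.2 ⟨i, Set.mem_biUnion hT ⟨hz, sub_self _⟩⟩
  have hla : ∀ m : Fin s → ℤ, AnalyticOnNhd ℂ (fun z => ∑ k, (m k : ℂ) * w k z) U := fun m z hz =>
    Finset.analyticAt_fun_sum _ fun k _ => analyticAt_const.mul (h.wa k z hz)
  have c6 := countable_fam h.conn (ι := {m : Fin s → ℤ // m ≠ 0})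
    (fun m => deriv (fun z => ∑ k, (m.1 k : ℂ) * w k z)) (fun m => (hla m.1).deriv) (by
      rintro ⟨m, hm⟩
      refine deriv_ne h.op h.conn h.ne (hla m) fun c => ?_
      by_contra hcon
      push Not at hcon
      exact hm (h.wi m c hcon))
  refine (((((c1.union c2).union c3).union c4).union c6)).mono ?_
  rintro z ⟨hz, hg⟩
  by_contra hcon
  simp only [Set.mem_union, not_or] at hcon
  obtain ⟨⟨⟨⟨d1, d2⟩, d3⟩, d4⟩, d6⟩ := hcon
  apply hg
  refine ⟨hz, d1, ?_, fun i h0 => d3 ⟨hz, i, h0⟩, fun i h0 => d4 ⟨hz, i, h0⟩, ?_⟩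
  · by_contra hG
    exact d2 ⟨hz, hG⟩
  · intro m hm h0
    exact d6 ⟨hz, ⟨m, hm⟩, h0⟩

/-- the standard flow is horizontal -/
theorem th_of_flow {x : Qd} {b c : ℂ} {D : Derivation ℚ ℂ ℂ} (hx : x.Ok) (hb : b ≠ 0)
    (ht : D x.t = c) (hh : D x.h = (b * x.h ^ 2 - b * x.p / 12) * c)
    (hp : D x.p = (4 * b * x.h * x.p - 6 * b * x.q) * c)
    (hq : D x.q = (6 * b * x.h * x.q - b * x.p ^ 2 / 3) * c) :
    Th b x D = 0 ∧ fb x D = b * c := by
  have hd := hx.dl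
  have e1 : fa x D = -(b * x.h * c) := by
    rw [fa, hp, hq, div_eq_iff (mul_ne_zero (by norm_num) hd), Qd.dl]
    ring
  have e2 : fb x D = b * c := by
    rw [fb, hp, hq, div_eq_iff (mul_ne_zero (by norm_num) hd), Qd.dl]
    ring
  have e3 : fu b x D = 0 := by
    rw [fu, hh, e1, e2]
    ring
  have e4 : fv x D = 0 := by
    rw [fv, e1, e2]
    ring
  have e5 : fs b x D = 0 := by
    rw [fs, ht, e2]
    field_simp
    ring
  refine ⟨?_, e2⟩
  apply ext3
  · rw [Th0, e3]; rfl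
  · rw [Th1, e3, e4, Pi.zero_apply]; ring
  · rw [Th2, e3, e4, e5, Pi.zero_apply]; ring

/-- names of the functions -/
abbrev Nj (n s : ℕ) : Type := (Fin n × Fin 4) ⊕ (Fin s ⊕ Fin s)

/-- the functions on the upper half-plane -/
def b4 : Fin 4 → ℂ → ℂ := ![fun t => t, jf, deriv jf, deriv (deriv jf)]

theorem b4_an (m : Fin 4) : AnalyticOnNhd ℂ (b4 m) {t : ℂ | 0 < t.im} := by
  fin_cases m
  · exact analyticOnNhd_id
  · exact an_j
  · exact an_dj
  · exact an_ddj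

/-- the functions `τ_i`, `j(τ_i)`, `j'(τ_i)`, `j''(τ_i)`, `w_k`, `exp(w_k)` -/
def yj (τ : Fin n → ℂ → ℂ) (w : Fin s → ℂ → ℂ) : Nj n s → ℂ → ℂ :=
  Sum.elim (fun p z => b4 p.2 (τ p.1 z)) (Sum.elim w (fun k z => Complex.exp (w k z)))

theorem yj_an (h : Fmj U τ w) (k : Nj n s) : AnalyticOnNhd ℂ (yj τ w k) U := by
  intro z hz
  rcases k with ⟨i, m⟩ | k | k
  · exact AnalyticAt.fun_comp (g := b4 m) (f := τ i) (b4_an m _ (h.im i z hz)) (h.ta i z hz)
  · exact h.wa k z hz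
  · exact (h.wa k z hz).cexp

/-- **the rank at a generic point** -/
theorem rank_pt (h : Fmj U τ w) (hn : 0 < n) (hb : be0 ∈ F) (g : Gpt U τ w F z₀) :
    ((3 * n + s + 1 : ℕ) : ℕ∞) ≤ (MK F).eRk (Set.range fun k => yj τ w k z₀) := by
  classical
  obtain ⟨D, hDF, hD⟩ := exists_Dinf h.op g.mem (fall_an h) g.gn
  have hz := g.mem
  have hder : ∀ {k : Nb n s} {d : ℂ}, HasDerivAt (f0 τ w k) d z₀ → D (f0 τ w k z₀) = d := by
    intro k d hd
    have h1 := hD (k, 0)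
    exact h1.trans hd.deriv
  set X : Fin n → Qd := fun i => QL (τ i z₀) with hX
  have hai := fun i => T0_spec.2 (τ i z₀) (h.im i z₀ hz) (g.t0 i)
  have hok : ∀ i, (X i).Ok := fun i => QL_ok (hai i)
  have hDb : D be0 = 0 := hDF _ hb
  set c : Fin n → ℂ := fun i => deriv (τ i) z₀ with hc
  have hτ : ∀ i, HasDerivAt (τ i) (c i) z₀ := fun i => (h.ta i z₀ hz).differentiableAt.hasDerivAt
  have hflow : ∀ i, Th be0 (X i) D = 0 ∧ fb (X i) D = be0 * c i := by
    intro i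
    have him := h.im i z₀ hz
    refine th_of_flow (hok i) be0_ne ?_ ?_ ?_ ?_
    · exact hder (k := Sum.inl (i, 0)) (hτ i)
    · exact hder (k := Sum.inl (i, 1)) ((der_h him).comp z₀ (hτ i))
    · exact hder (k := Sum.inl (i, 2)) ((der_p him).comp z₀ (hτ i))
    · exact hder (k := Sum.inl (i, 3)) ((der_q him).comp z₀ (hτ i))
  have hng : ∀ i, D (gg (X i)) ≠ 0 := by
    intro i
    have hp := (hok i).p0
    have hq := (hok i).q0
    have hd := (hok i).dl
    have e1 : D (gg (X i)) = 2 / 3 * fb (X i) D * (X i).p ^ 2 * (X i).dl / (X i).q ^ 3 := by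
      rw [d_gg (hok i), Qd.dl]
      field_simp
      ring
    rw [e1, (hflow i).2]
    exact div_ne_zero (mul_ne_zero (mul_ne_zero (mul_ne_zero (by norm_num)
      (mul_ne_zero be0_ne (g.dt i))) (pow_ne_zero 2 hp)) hd) (pow_ne_zero 3 hq)
  have hjg := fun i => gg_of_j (h.im i z₀ hz) (hok i)
  have hind : ∀ i k, i ≠ k → gg (X i) ∉ clo (Cst D) {gg (X k)} := by
    intro i k hik hcon
    have h1 := const_indep (f := fall τ w) (d := fun k => (k.1, k.2 + 1)) h.op h.conn hz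
      (fall_an h) (fun k z _ => by
        rw [fall, fall, Function.iterate_succ_apply']) hD
      (ι := Fin 2) (fun m => (Sum.inl (![i, k] m, 4), 0)) (h.ji i k hik)
    obtain ⟨δ, hδ, hv⟩ := exists_derF (Cst D) h1 ![1, 0]
    have v0 : δ (jf (τ i z₀)) = 1 := hv 0
    have v1 : δ (jf (τ k z₀)) = 0 := hv 1
    have n27 : δ 27 = 0 := dnat δ 27
    have hk : δ (gg (X k)) = 0 := by
      have hne := sub_ne_zero.2 (hjg k).1
      rw [(hjg k).2.1, ddiv _ _ hne, dmul, map_sub, v1, dnat, dnat]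
      ring
    have hi := hcon δ hδ (fun x hx => by rw [Set.mem_singleton_iff.1 hx, hk])
    have h27 := gg_27 (hok i)
    have h3 : δ (jf (τ i z₀)) = 0 := by
      rw [(hjg i).2.2]
      change δ (1728 * gg (X i) / (gg (X i) - 27)) = 0
      rw [ddiv _ _ h27, dmul, map_sub, hi, dnat, dnat]
      ring
    rw [v0] at h3
    exact one_ne_zero h3
  have hyp : Hyp be0 X D := ⟨hok, be0_ne, hDb, fun i => (hflow i).1, hng,
    fun i => free_LC (h.im i z₀ hz) (g.t0 i), hind⟩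
  have ht : ∀ k, Tf D (w k z₀) = 0 := by
    intro k
    have e1 : HasDerivAt (w k) (deriv (w k) z₀) z₀ := (h.wa k z₀ hz).differentiableAt.hasDerivAt
    have e2 := hder (k := Sum.inr (Sum.inl k)) e1
    have e3 := hder (k := Sum.inr (Sum.inr k)) e1.cexp
    change D (w k z₀) = _ at e2
    change D (Complex.exp (w k z₀)) = _ at e3
    rw [Tf, lg, e2, e3, mul_div_cancel_left₀ _ (Complex.exp_ne_zero _), sub_self]
  have hti : ∀ q : Fin s → ℚ, D (∑ k, q k • w k z₀) = 0 → q = 0 := by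
    intro q hq
    by_contra hne
    obtain ⟨A, hA, m, hm⟩ := exists_den q
    have hm0 : m ≠ 0 := by
      rintro rfl
      apply hne
      funext i
      have h1 := hm i
      simp only [Pi.zero_apply, Int.cast_zero] at h1
      have hA' : (A : ℚ) ≠ 0 := by exact_mod_cast hA.ne'
      exact (mul_eq_zero.1 h1.symm).resolve_left hA'
    apply g.wi m hm0
    have h1 : HasDerivAt (fun z => ∑ k, (m k : ℂ) * w k z) (∑ k, (m k : ℂ) * D (w k z₀)) z₀ := by
      refine HasDerivAt.fun_sum fun k _ => ?_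
      have h2 : HasDerivAt (w k) (deriv (w k) z₀) z₀ := (h.wa k z₀ hz).differentiableAt.hasDerivAt
      have h3 : D (w k z₀) = deriv (w k) z₀ := hder (k := Sum.inr (Sum.inl k)) h2
      rw [h3]
      exact h2.const_mul _
    rw [h1.deriv]
    rw [map_sum] at hq
    have h4 : ∑ k, (m k : ℂ) * D (w k z₀) = A * ∑ k, D (q k • w k z₀) := by
      rw [Finset.mul_sum]
      refine Finset.sum_congr rfl fun k _ => ?_
      have h2 : (m k : ℂ) = A * q k := by exact_mod_cast congrArg (fun t : ℚ => (t : ℂ)) (hm k)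
      rw [h2, D.map_smul, Rat.smul_def]
      ring
    rw [h4, hq, mul_zero]
  have hrank := hyp.rank hn ht hti
  refine le_trans (hrank.trans (rk_le_of_subset_cl ?_)) (eRk_anti (F := F) (F' := Cst D)
    (fun x hx => hDF x hx) _)
  intro x hx
  rw [← mem_clo_iff]
  have mO : ∀ k : Nj n s, yj τ w k z₀ ∈ clo (Cst D) (Set.range fun k => yj τ w k z₀) :=
    fun k => subset_clo ⟨k, rfl⟩
  rcases hx with hx | ⟨k, rfl⟩ | ⟨k, rfl⟩
  · obtain ⟨i, hi⟩ := Set.mem_iUnion.1 hx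
    have m1 : τ i z₀ ∈ clo (Cst D) (Set.range fun k => yj τ w k z₀) := mO (Sum.inl (i, 0))
    obtain ⟨m2, m3, m4⟩ := mem_of_j (h.im i z₀ hz) (hok i)
      (K := clo (Cst D) (Set.range fun k => yj τ w k z₀)) (base_clo hDb)
      (mO (Sum.inl (i, 1))) (mO (Sum.inl (i, 2))) (mO (Sum.inl (i, 3)))
    rcases hi with rfl | rfl | rfl | rfl
    · exact m1
    · exact m2
    · exact m3
    · exact m4
  · exact mO (Sum.inr (Sum.inl k))
  · exact mO (Sum.inr (Sum.inr k))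

/-- **independent functions** -/
theorem exists_loc (h : Fmj U τ w) (hn : 0 < n) : ∃ e : Fin (3 * n + s) → Nj n s,
    Function.Injective e ∧ ∀ t ∈ U, Y124.LocInd (fun k => yj τ w (e k)) t := by
  classical
  obtain ⟨zs, hzs⟩ := h.ne
  obtain ⟨F, hFc, hF⟩ := exists_cf (T := TS (yj τ w) zs ∪ {be0})
    ((TS_countable _ _).union (Set.countable_singleton _))
  obtain ⟨z₀, hz₀, hnot⟩ := exists_notMem h.op h.ne (countable_Gpt h hFc)
  have hg : Gpt U τ w F z₀ := by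
    by_contra hcon
    exact hnot ⟨hz₀, hcon⟩
  have hr := rank_pt h hn (hF (Or.inr rfl)) hg
  exact Pool.Agent.Y776.Cv.exists_sub h.conn h.op (yj_an h) hzs
    (fun x hx => hF (Or.inl hx)) hz₀ hg.tr (hr.trans ((MK F).eRk_mono (Set.subset_insert _ _)))

end Pool.Agent.Y776.AxJ
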