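import Mathlib
import Pool.Agent.Y776.AxJ.Fun

/-!
# Independent functions in other families, and the nomes
-/

set_option autoImplicit false

open Finset Module Filter Topology

noncomputable section

namespace Pool.Agent.Y776.AxJ

open H667R3 Pool.Agent.W245.EB
open Pool.Agent.Y685 Pool.Agent.TH813.Ell Pool.Agent.Y776 Pool.Agent.Y776.Fam
open Pool.Agent.TH813.Rel (DF MK exists_derF bracket_mem rk_le_of_subset_cl)
open Pool.Agent.Y776.Cv (FInd eRk_anti)

variable {n s : ℕ} {U : Set ℂ} {τ : Fin n → ℂ → ℂ} {w : Fin s → ℂ → ℂ}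

/-- **independent functions in another family** -/
theorem exists_loc' (h : Fmj U τ w) (hn : 0 < n) {κ : Type} [Fintype κ] {y : κ → ℂ → ℂ}
    (hy : ∀ k, AnalyticOnNhd ℂ (y k) U) {G : Set ℂ} (hG : G.Countable)
    (hsub : ∀ F : IntermediateField ℚ ℂ, G ⊆ F → ∀ z ∈ U, ∀ k,
      yj τ w k z ∈ clo F (Set.range fun k => y k z)) : ∃ e : Fin (3 * n + s) → κ,
    Function.Injective e ∧ ∀ t ∈ U, Y124.LocInd (fun k => y (e k)) t := by
  classical
  obtain ⟨zs, hzs⟩ := h.ne
  obtain ⟨F, hFc, hF⟩ := exists_cf (T := (TS y zs ∪ {be0}) ∪ G)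
    (((TS_countable _ _).union (Set.countable_singleton _)).union hG)
  obtain ⟨z₀, hz₀, hnot⟩ := exists_notMem h.op h.ne (countable_Gpt h hFc)
  have hg : Gpt U τ w F z₀ := by
    by_contra hcon
    exact hnot ⟨hz₀, hcon⟩
  have hr := rank_pt h hn (hF (Or.inl (Or.inr rfl))) hg
  refine Pool.Agent.Y776.Cv.exists_sub h.conn h.op hy hzs
    (fun x hx => hF (Or.inl (Or.inl hx))) hz₀ hg.tr
    ((hr.trans (rk_le_of_subset_cl ?_)).trans ((MK F).eRk_mono (Set.subset_insert _ _)))
  rintro _ ⟨k, rfl⟩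
  rw [← mem_clo_iff]
  exact hsub F (fun x hx => hF (Or.inr hx)) z₀ hz₀ k

/-- the functions `τ_i`, `j(τ_i)`, `j'(τ_i)`, `j''(τ_i)`, `exp(2 π i τ_i)` -/
def yn (τ : Fin n → ℂ → ℂ) : Fin n × Fin 5 → ℂ → ℂ := fun p z =>
  ![τ p.1 z, jf (τ p.1 z), deriv jf (τ p.1 z), deriv (deriv jf) (τ p.1 z),
    Complex.exp (2 * Real.pi * Complex.I * τ p.1 z)] p.2

theorem yn_an (h : Fmj U τ w) (p : Fin n × Fin 5) : AnalyticOnNhd ℂ (yn τ p) U := by
  obtain ⟨i, m⟩ := p
  fin_cases m
  · exact yj_an h (Sum.inl (i, 0))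
  · exact yj_an h (Sum.inl (i, 1))
  · exact yj_an h (Sum.inl (i, 2))
  · exact yj_an h (Sum.inl (i, 3))
  · exact fun z hz => (analyticAt_const.mul (h.ta i z hz)).cexp

/-- independent functions with the nomes -/
theorem exists_loc_nome (h : Fmj U τ (fun i z => 2 * Real.pi * Complex.I * τ i z)) (hn : 0 < n) :
    ∃ e : Fin (4 * n) → Fin n × Fin 5, Function.Injective e ∧
      ∀ t ∈ U, Y124.LocInd (fun k => yn τ (e k)) t := by
  obtain ⟨e, he, hL⟩ := exists_loc' h hn (y := yn τ) (yn_an h)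
    (G := {2 * Real.pi * Complex.I}) (Set.countable_singleton _) (by
    intro F hF z _ k
    have mO : ∀ k, yn τ k z ∈ clo F (Set.range fun k => yn τ k z) := fun k => subset_clo ⟨k, rfl⟩
    rcases k with ⟨i, m⟩ | i | i
    · fin_cases m
      · exact mO (i, 0)
      · exact mO (i, 1)
      · exact mO (i, 2)
      · exact mO (i, 3)
    · exact mul_mem (base_clo (hF rfl)) (mO (i, 0))
    · exact mO (i, 4))
  have hcard : 4 * n = 3 * n + n := by ring
  exact ⟨fun k => e (Fin.cast hcard k), fun a b hab => by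
    have := he hab
    exact (Fin.cast_injective hcard) this, fun t ht => by
    have h1 := hL t ht
    intro P hP
    have h2 : ∀ᶠ t in 𝓝 t, MvPolynomial.eval (fun o : Option (Fin (3 * n + n)) => o.elim t
        fun k => yn τ (e k) t) (MvPolynomial.rename (Option.map (Fin.cast hcard)) P) = 0 := by
      filter_upwards [hP] with t ht
      rw [MvPolynomial.eval_rename]
      rw [← ht]
      congr 2
      funext o
      rcases o with _ | k <;> rfl
    have h3 := h1 _ h2
    have h4 : Function.Injective (Option.map (Fin.cast hcard)) :=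
      Option.map_injective (Fin.cast_injective hcard)
    exact (MvPolynomial.rename_injective _ h4) (by rw [h3, map_zero])⟩

end Pool.Agent.Y776.AxJ
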